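import Pool.Agent.TH133.Defs

/-!
# Complete intersections in a product of two varieties: definitions
-/

open CategoryTheory AlgebraicGeometry

universe u v w

namespace Pool.Agent.V1157.RC

open Pool.Agent.H914 Pool.Agent.H914.VarClass Pool.Agent.H914.VarClass.Obj Pool.Agent.W492.BB
  Pool.Agent.W550.Corr Pool.Agent.TH133

variable {k : Type u} [Field k] {𝒱 : VarClass k}

/-- For the varieties `S` and `T` of dimension `n` there are a variety `V` of dimension `n`,
morphisms `p : V ⟶ S` and `r : V ⟶ T`, and divisor classes `a` on `S` and `b` on `T` with non-zero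
self-intersection numbers `(a ^ n)` and `(b ^ n)`, such that `(p, r)_* [V]` is the `n`-th power of
the divisor class `a × T + S × b` on `S × T`. (For `n ≥ 1` and smooth projective varieties over an
algebraically closed field: `a` and `b` are very ample, and `V ⊆ S × T` is a general complete
intersection of `n` divisors in the linear system `|a × T + S × b|`, by the theorem of Bertini.) -/
def HasIntersection (C : TheoryData.{u, v, 0} 𝒱 ℚ) (n : ℕ) (S T : 𝒱.Obj) : Prop :=
  ∃ (V : 𝒱.Obj) (p : V ⟶ S) (r : V ⟶ T) (a : C.A S) (b : C.A T) (m l : ℚ),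
    V.dim = n ∧ C.Deg 1 a ∧ C.Deg 1 b ∧ m ≠ 0 ∧ l ≠ 0 ∧ HasDegree C (a ^ n) m ∧
    HasDegree C (b ^ n) l ∧
    C.down (Obj.lift p r) 1 = (C.up (fst S T) a + C.up (snd S T) b) ^ n

end Pool.Agent.V1157.RC
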