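import Pool.Agent.Y148.BB.Corr
import Pool.Agent.V1157.RC.Defs

/-!
# Square-zero self-correspondences of complete intersections in products
-/

open CategoryTheory AlgebraicGeometry

universe u v w

namespace Pool.Agent.V1157.RC

open Pool.Agent.H914 Pool.Agent.H914.VarClass Pool.Agent.H914.VarClass.Obj Pool.Agent.W492.BB
  Pool.Agent.W550.Corr Pool.Agent.TH133 Pool.Agent.Y148.BB

set_option linter.unusedSectionVars false

variable {k : Type u} [Field k] {𝒱 : VarClass k} {C : TheoryData.{u, v, 0} 𝒱 ℚ}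
  [hC : IsChowProj C] {S T V U X Y : 𝒱.Obj} {n : ℕ}

/-- The data of `HasIntersection`. -/
structure Cover (C : TheoryData.{u, v, 0} 𝒱 ℚ) (n : ℕ) {S T V : 𝒱.Obj} (p : V ⟶ S) (r : V ⟶ T)
    (a : C.A S) (b : C.A T) (m l : ℚ) : Prop where
  dimS : S.dim = n
  dimT : T.dim = n
  dimV : V.dim = n
  ha : a ∈ C.gr S 1
  hb : b ∈ C.gr T 1
  hm : m ≠ 0
  hl : l ≠ 0
  dm : HasDegree C (a ^ n) m
  dl : HasDegree C (b ^ n) l
  cls : C.push (Obj.lift p r) 1 = (C.pull (fst S T) a + C.pull (snd S T) b) ^ n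

include hC

lemma tpc (Γ : C.A (X.prod Y)) (Δ : C.A (Y.prod U)) :
    tp C (C.comp Γ Δ) = C.comp (tp C Δ) (tp C Γ) := tp_comp C (ch_comm C) Γ Δ

lemma smul_comp' (c : ℚ) (Γ : C.A (X.prod Y)) (Δ : C.A (Y.prod U)) :
    C.comp (c • Γ) Δ = c • C.comp Γ Δ := by
  rw [← compL_apply, map_smul, LinearMap.smul_apply, compL_apply]

lemma comp_smul' (c : ℚ) (Γ : C.A (X.prod Y)) (Δ : C.A (Y.prod U)) :
    C.comp Γ (c • Δ) = c • C.comp Γ Δ := by
  rw [← compL_apply, map_smul, compL_apply]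

lemma act_smul' (c : ℚ) (Γ : C.A (X.prod Y)) (x : C.A X) : C.act (c • Γ) x = c • C.act Γ x := by
  rw [← actB_apply, map_smul, LinearMap.smul_apply, actB_apply]

lemma pow_mem' {a : C.A S} (ha : a ∈ C.gr S 1) (j : ℕ) : a ^ j ∈ C.gr S j := by
  induction j with
  | zero => rw [pow_zero]; exact C.one_mem S
  | succ j ih =>
    rw [pow_succ]
    exact gr_congr (by push_cast; ring) (C.mul_mem ih ha)

lemma tp_graph (f : X ⟶ Y) : tp C (C.graph f) = C.cograph f := by
  have e1 : Obj.lift (𝟙 X) f ≫ sw X Y = Obj.lift f (𝟙 X) := by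
    apply prod_ext <;> simp [sw, comp_lift]
  rw [tp_eq_push, TheoryData.graph, ← C.push_comp, e1, TheoryData.cograph]

lemma tp_cograph (f : X ⟶ Y) : tp C (C.cograph f) = C.graph f := by rw [← tp_graph, tp_tp]

lemma graph_mem (f : X ⟶ Y) : C.graph f ∈ C.gr (X.prod Y) Y.dim := by
  rw [← tp_cograph]; exact tp_mem C (cograph_mem f)

lemma cog_gr (p : V ⟶ S) (r : V ⟶ T) :
    C.comp (C.cograph p) (C.graph r) = C.push (Obj.lift p r) 1 := by
  have e1 : Obj.lift p (𝟙 V) ≫ prodMap (𝟙 S) r = Obj.lift p r := by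
    apply prod_ext <;> simp
  rw [comp_graph, TheoryData.cograph, ← C.push_comp, e1]

lemma push_pull_of {p : V ⟶ S} {l : ℚ} (h : C.push p 1 = l • (1 : C.A S)) (x : C.A S) :
    C.push p (C.pull p x) = l • x := by
  have h1 := C.proj_right p 1 x
  rwa [one_mul, h, smul_mul_assoc, one_mul] at h1

lemma cog_gr_self {p : V ⟶ S} {l : ℚ} (h : C.push p 1 = l • (1 : C.A S)) :
    C.comp (C.cograph p) (C.graph p) = l • dg C S := by
  have e1 : Obj.lift p p = p ≫ Obj.lift (𝟙 S) (𝟙 S) := by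
    apply prod_ext <;> simp
  rw [cog_gr, e1, C.push_comp, h, map_smul]
  rfl

/-- The binomial formula. -/
lemma pow_eq_sum (a : C.A S) (b : C.A T) (n : ℕ) :
    (C.pull (fst S T) a + C.pull (snd S T) b) ^ n =
      ∑ j ∈ Finset.range (n + 1), (n.choose j : ℚ) • C.ext (a ^ j) (b ^ (n - j)) := by
  have hc : Commute (C.pull (fst S T) a) (C.pull (snd S T) b) := ch_comm C _ _
  rw [hc.add_pow]
  refine Finset.sum_congr rfl fun j _ => ?_
  rw [TheoryData.ext, map_pow, map_pow, Algebra.smul_def, map_natCast, (Nat.cast_commute _ _).eq]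

/-- The projector on the span of the powers of a divisor class `a` with `(a ^ n) = m`. -/
noncomputable def prj (C : TheoryData.{u, v, 0} 𝒱 ℚ) {S : 𝒱.Obj} (n : ℕ) (a : C.A S) (m : ℚ) :
    C.A (S.prod S) :=
  m⁻¹ • ∑ j ∈ Finset.range (n + 1), C.ext (a ^ (n - j)) (a ^ j)

lemma prj_mem {a : C.A S} (ha : a ∈ C.gr S 1) (m : ℚ) : prj C n a m ∈ C.gr (S.prod S) n := by
  refine Submodule.smul_mem _ _ (Submodule.sum_mem _ fun j hj => ?_)
  have hj' := Finset.mem_range.1 hj
  exact gr_congr (by push_cast [Nat.lt_succ_iff.1 hj']; ring)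
    (ext_mem' (pow_mem' ha (n - j)) (pow_mem' ha j))

lemma tp_prj (a : C.A S) (m : ℚ) : tp C (prj C n a m) = prj C n a m := by
  rw [prj, tp_smul, tp_sum]
  congr 1
  rw [← Finset.sum_flip]
  refine Finset.sum_congr rfl fun j hj => ?_
  have hj' : j ≤ n := Nat.lt_succ_iff.1 (Finset.mem_range.1 hj)
  rw [tp_ext, Nat.sub_sub_self hj']

lemma act_prj_pow (hS : S.dim = n) {a : C.A S} (ha : a ∈ C.gr S 1) {m : ℚ} (hm : m ≠ 0)
    (dm : HasDegree C (a ^ n) m) {i : ℕ} (hi : i ≤ n) : C.act (prj C n a m) (a ^ i) = a ^ i := by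
  rw [prj, act_smul', act_sum, Finset.sum_eq_single i]
  · have e1 : a ^ (n - i) * a ^ i = a ^ n := by rw [← pow_add]; congr 1; omega
    rw [act_ext' (q := m) (by rw [e1]; exact dm), smul_smul, inv_mul_cancel₀ hm, one_smul]
  · intro j hj hji
    have hj' : j ≤ n := Nat.lt_succ_iff.1 (Finset.mem_range.1 hj)
    refine act_ext_zero_of_lt (i := ((n - j + i : ℕ) : ℤ)) ?_ ?_
    · rw [← pow_add]; exact pow_mem' ha _
    · rw [hS]
      intro h
      have h' : n - j + i = n := by exact_mod_cast h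
      omega
  · intro h
    exact absurd (Finset.mem_range.2 (by omega)) h

lemma act_prj_zero (hS : S.dim = n) {a : C.A S} (ha : a ∈ C.gr S 1) (m : ℚ) {x : C.A S}
    (hx : x ∈ C.gr S n) (h0 : HasDegree C x 0) : C.act (prj C n a m) x = 0 := by
  rw [prj, act_smul', act_sum, Finset.sum_eq_zero, smul_zero]
  intro j hj
  have hj' : j ≤ n := Nat.lt_succ_iff.1 (Finset.mem_range.1 hj)
  by_cases hjn : j = n
  · subst hjn
    rw [Nat.sub_self, pow_zero, act_ext' (q := 0) (by rwa [one_mul]), zero_smul]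
  · refine act_ext_zero_of_lt (i := ((n - j : ℕ) : ℤ) + n)
      (C.mul_mem (pow_mem' ha _) hx) ?_
    rw [hS]
    intro h
    have : ((n - j : ℕ) : ℤ) = 0 := by linarith
    have h' : n - j = 0 := by exact_mod_cast this
    omega

/-- The action of `a ^ j × b ^ (n - j)` on zero-cycles of degree zero. -/
lemma act_ext_zero' (hS : S.dim = n) {a : C.A S} (ha : a ∈ C.gr S 1) (b : C.A T) {j : ℕ}
    {x : C.A S} (hx : x ∈ C.gr S n) (h0 : HasDegree C x 0) : C.act (C.ext (a ^ j) b) x = 0 := by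
  by_cases hj : j = 0
  · subst hj
    rw [pow_zero, act_ext' (q := 0) (by rwa [one_mul]), zero_smul]
  · refine act_ext_zero_of_lt (i := (j : ℤ) + n) (C.mul_mem (pow_mem' ha _) hx) ?_
    rw [hS]
    intro h
    have : (j : ℤ) = 0 := by linarith
    exact hj (by exact_mod_cast this)

section cover

variable {p : V ⟶ S} {r : V ⟶ T} {a : C.A S} {b : C.A T} {m l : ℚ}

lemma Cover.symm (h : Cover C n p r a b m l) : Cover C n r p b a l m where
  dimS := h.dimT
  dimT := h.dimS
  dimV := h.dimV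
  ha := h.hb
  hb := h.ha
  hm := h.hl
  hl := h.hm
  dm := h.dl
  dl := h.dm
  cls := by
    have e1 : Obj.lift p r ≫ sw S T = Obj.lift r p := by
      apply prod_ext <;> simp [sw, comp_lift]
    have e2 : sw T S ≫ fst S T = snd T S := lift_fst _ _
    have e3 : sw T S ≫ snd S T = fst T S := lift_snd _ _
    rw [← e1, C.push_comp, h.cls, ← tp_eq_push, tp, map_pow, map_add, ← C.pull_comp,
      ← C.pull_comp, e2, e3, add_comm]

lemma Cover.push_p (h : Cover C n p r a b m l) : C.push p 1 = l • (1 : C.A S) := by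
  have e1 : p = Obj.lift p r ≫ fst S T := (lift_fst _ _).symm
  rw [e1, C.push_comp, h.cls, pow_eq_sum, map_sum, Finset.sum_eq_single 0]
  · rw [Nat.choose_zero_right, Nat.cast_one, one_smul, pow_zero, Nat.sub_zero, TheoryData.ext,
      map_one, one_mul]
    exact (h.dl S).2
  · intro j hj hj0
    have hj' : j ≤ n := Nat.lt_succ_iff.1 (Finset.mem_range.1 hj)
    have h1 : C.push (fst S T) (C.pull (snd S T) (b ^ (n - j))) = 0 := by
      have h2 := C.push_mem (fst S T) (C.pull_mem (snd S T) (pow_mem' h.hb (n - j)))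
      rw [C.gr_neg S _ (by rw [dim_prod, h.dimS, h.dimT]; push_cast; omega)] at h2
      exact (Submodule.mem_bot _).1 h2
    rw [map_smul, TheoryData.ext, C.proj_left, h1, mul_zero, smul_zero]
  · intro h0
    exact absurd (Finset.mem_range.2 (by omega)) h0

/-- The correspondence `Z` without its parts on the powers of `a` and `b`. -/
noncomputable def shp (n : ℕ) (a : C.A S) (b : C.A T) (m l : ℚ) (Z : C.A (S.prod T)) :
    C.A (S.prod T) :=
  C.comp (dg C S - prj C n a m) (C.comp Z (dg C T - prj C n b l))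

lemma tp_shp (Z : C.A (S.prod T)) : tp C (shp n a b m l Z) = shp n b a l m (tp C Z) := by
  rw [shp, shp, tpc, tpc, tp_sub, tp_sub, tp_dg, tp_dg, tp_prj, tp_prj, comp_assoc]

lemma Cover.act_shp_pow (h : Cover C n p r a b m l) (Z : C.A (S.prod T)) {i : ℕ} (hi : i ≤ n) :
    C.act (shp n a b m l Z) (a ^ i) = 0 := by
  rw [shp, C.act_comp, C.act_sub, act_dg, act_prj_pow h.dimS h.ha h.hm h.dm hi, sub_self,
    C.act_map_zero]

lemma Cover.comp_shp (h : Cover C n p r a b m l) (Z : C.A (S.prod T)) :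
    C.comp (C.comp (C.cograph r) (C.graph p)) (shp n a b m l Z) = 0 := by
  rw [cog_gr, h.symm.cls, pow_eq_sum, sum_comp, Finset.sum_eq_zero]
  intro j hj
  have hj' : j ≤ n := Nat.lt_succ_iff.1 (Finset.mem_range.1 hj)
  rw [smul_comp', ext_comp, h.act_shp_pow Z (by omega), C.ext_zero_right, smul_zero]

lemma Cover.shp_comp (h : Cover C n p r a b m l) (Z : C.A (S.prod T)) :
    C.comp (shp n a b m l Z) (C.comp (C.cograph r) (C.graph p)) = 0 := by
  have h1 := h.symm.comp_shp (tp C Z)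
  have h2 := congrArg (tp C) h1
  rw [tpc, tpc, tp_graph, tp_cograph, tp_shp, tp_tp, tp_zero] at h2
  exact h2

lemma Cover.act_shp (h : Cover C n p r a b m l) {Z : C.A (S.prod T)} {x : C.A S}
    (hx : x ∈ C.gr S n) (h0 : HasDegree C x 0) (hy : C.act Z x ∈ C.gr T n)
    (h0' : HasDegree C (C.act Z x) 0) : C.act (shp n a b m l Z) x = C.act Z x := by
  rw [shp, C.act_comp, C.act_sub, act_dg, act_prj_zero h.dimS h.ha m hx h0, sub_zero, C.act_comp,
    C.act_sub, act_dg, act_prj_zero h.dimT h.hb l hy h0', sub_zero]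

/-- The self-correspondence of `V` which is attached to `Z`. -/
noncomputable def sqz (C : TheoryData.{u, v, 0} 𝒱 ℚ) {S T V : 𝒱.Obj} (n : ℕ) (p : V ⟶ S)
    (r : V ⟶ T) (a : C.A S) (b : C.A T) (m l : ℚ) (Z : C.A (S.prod T)) : C.A (V.prod V) :=
  C.comp (C.graph p) (C.comp (shp n a b m l Z) (C.cograph r))

lemma Cover.sqz_mem (h : Cover C n p r a b m l) {Z : C.A (S.prod T)} (hZ : Z ∈ C.gr (S.prod T) n) :
    sqz C n p r a b m l Z ∈ C.gr (V.prod V) n := by
  have c0 : ∀ {X Y U : 𝒱.Obj} (hX : X.dim = n) (hY : Y.dim = n) {Γ : C.A (X.prod Y)}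
      {Δ : C.A (Y.prod U)}, Γ ∈ C.gr (X.prod Y) n → Δ ∈ C.gr (Y.prod U) n →
      C.comp Γ Δ ∈ C.gr (X.prod U) n := by
    intro X Y U hX hY Γ Δ h1 h2
    have := comp_mem C (e := 0) (e' := 0) (Γ := Γ) (Δ := Δ) (by rw [hX, add_zero]; exact h1)
      (by rw [hY, add_zero]; exact h2)
    exact gr_congr (by rw [hX]; ring) this
  have g1 : C.graph p ∈ C.gr (V.prod S) n := gr_congr (by rw [h.dimS]) (graph_mem p)
  have g2 : C.cograph r ∈ C.gr (T.prod V) n := gr_congr (by rw [h.dimT]) (cograph_mem r)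
  have d1 : dg C S - prj C n a m ∈ C.gr (S.prod S) n :=
    Submodule.sub_mem _ (gr_congr (by rw [h.dimS]) (dg_mem C S)) (prj_mem h.ha m)
  have d2 : dg C T - prj C n b l ∈ C.gr (T.prod T) n :=
    Submodule.sub_mem _ (gr_congr (by rw [h.dimT]) (dg_mem C T)) (prj_mem h.hb l)
  exact c0 h.dimV h.dimS g1 (c0 h.dimS h.dimT (c0 h.dimS h.dimS d1 (c0 h.dimS h.dimT hZ d2)) g2)

lemma Cover.sqz_sq (h : Cover C n p r a b m l) (Z : C.A (S.prod T)) :
    C.comp (sqz C n p r a b m l Z) (sqz C n p r a b m l Z) = 0 := by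
  have h1 := h.shp_comp Z
  rw [sqz, comp_assoc, comp_assoc, ← comp_assoc C (C.cograph r),
    ← comp_assoc C (shp n a b m l Z) (C.comp (C.cograph r) (C.graph p)), h1, zero_comp, comp_zero]

lemma Cover.act_sqz (h : Cover C n p r a b m l) {Z : C.A (S.prod T)} {x : C.A S}
    (hx : x ∈ C.gr S n) (h0 : HasDegree C x 0) (hy : C.act Z x ∈ C.gr T n)
    (h0' : HasDegree C (C.act Z x) 0) :
    C.act (sqz C n p r a b m l Z) (C.pull p x) = l • C.pull r (C.act Z x) := by
  rw [sqz, C.act_comp, C.act_graph, push_pull_of h.push_p, C.act_comp, act_map_smul,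
    h.act_shp hx h0 hy h0', act_map_smul, C.act_cograph]

lemma Cover.push_act_sqz (h : Cover C n p r a b m l) {Z : C.A (S.prod T)} {x : C.A S}
    (hx : x ∈ C.gr S n) (h0 : HasDegree C x 0) (hy : C.act Z x ∈ C.gr T n)
    (h0' : HasDegree C (C.act Z x) 0) :
    C.push r (C.act (sqz C n p r a b m l Z) (C.pull p x)) = (l * m) • C.act Z x := by
  rw [h.act_sqz hx h0 hy h0', map_smul, push_pull_of h.symm.push_p, smul_smul]

lemma tp_sqz (Z : C.A (S.prod T)) :
    tp C (sqz C n p r a b m l Z) = sqz C n r p b a l m (tp C Z) := by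
  rw [sqz, sqz, tpc, tpc, tp_graph, tp_cograph, tp_shp, comp_assoc]

lemma Cover.act_tp_sqz (h : Cover C n p r a b m l) (Z : C.A (S.prod T)) {x : C.A S}
    (hx : x ∈ C.gr S n) (h0 : HasDegree C x 0) :
    C.act (tp C (sqz C n p r a b m l Z)) (C.pull p x) = 0 := by
  have h1 : C.push r (C.pull p x) = 0 := by
    rw [← C.act_graph, ← C.act_cograph, ← C.act_comp, cog_gr, h.cls, pow_eq_sum, act_sum,
      Finset.sum_eq_zero]
    intro j hj
    rw [act_smul', act_ext_zero' h.dimS h.ha _ hx h0, smul_zero]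
  rw [tp_sqz, sqz, C.act_comp, C.act_graph, h1, C.act_map_zero]

/-- The projector `(1 / l) ᵗp p` of `V`. -/
noncomputable def idp (C : TheoryData.{u, v, 0} 𝒱 ℚ) {S V : 𝒱.Obj} (p : V ⟶ S) (l : ℚ) :
    C.A (V.prod V) := l⁻¹ • C.comp (C.graph p) (C.cograph p)

lemma Cover.idp_mem (h : Cover C n p r a b m l) : idp C p l ∈ C.gr (V.prod V) n := by
  have g1 : C.graph p ∈ C.gr (V.prod S) (V.dim + 0) :=
    gr_congr (by rw [h.dimS, h.dimV]; ring) (graph_mem p)
  have g2 : C.cograph p ∈ C.gr (S.prod V) (S.dim + 0) :=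
    gr_congr (by ring) (cograph_mem p)
  exact Submodule.smul_mem _ _ (gr_congr (by rw [h.dimV]; ring) (comp_mem C g1 g2))

lemma Cover.idp_idem (h : Cover C n p r a b m l) : C.comp (idp C p l) (idp C p l) = idp C p l := by
  have h1 := cog_gr_self h.push_p
  rw [idp, smul_comp', comp_smul', comp_assoc, ← comp_assoc C (C.cograph p), h1, smul_comp',
    dg_comp, comp_smul', smul_smul, smul_smul, mul_assoc, inv_mul_cancel₀ h.hl, mul_one]

lemma Cover.idp_sqz (h : Cover C n p r a b m l) (Z : C.A (S.prod T)) :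
    C.comp (idp C p l) (sqz C n p r a b m l Z) = sqz C n p r a b m l Z := by
  have h1 := cog_gr_self h.push_p
  rw [idp, sqz, smul_comp', comp_assoc, ← comp_assoc C (C.cograph p), h1, smul_comp', dg_comp,
    comp_smul', smul_smul, inv_mul_cancel₀ h.hl, one_smul]

lemma Cover.sqz_idp (h : Cover C n p r a b m l) (Z : C.A (S.prod T)) :
    C.comp (sqz C n p r a b m l Z) (idp C p l) = 0 := by
  have h1 := h.shp_comp Z
  rw [idp, sqz, comp_smul', comp_assoc, comp_assoc, ← comp_assoc C (C.cograph r),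
    ← comp_assoc C (shp n a b m l Z) (C.comp (C.cograph r) (C.graph p)), h1, zero_comp, comp_zero,
    smul_zero]

lemma Cover.idem_add (h : Cover C n p r a b m l) (Z : C.A (S.prod T)) :
    C.comp (idp C p l + sqz C n p r a b m l Z) (idp C p l + sqz C n p r a b m l Z) =
      idp C p l + sqz C n p r a b m l Z := by
  rw [comp_add, add_comp, add_comp, h.idp_idem, h.sqz_idp, h.idp_sqz, h.sqz_sq, add_zero,
    add_zero]

end cover

lemma unit_add {W : C.A (V.prod V)} (h : C.comp W W = 0) :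
    C.comp (dg C V + W) (dg C V - W) = dg C V ∧ C.comp (dg C V - W) (dg C V + W) = dg C V := by
  constructor
  · rw [comp_sub, add_comp, add_comp, dg_comp, dg_comp, comp_dg, h, add_zero]
    abel
  · rw [comp_add, sub_comp, sub_comp, dg_comp, dg_comp, comp_dg, h, sub_zero]
    abel

section weil

variable {K : Type w} [Field K] {H : WeilTheoryData.{u, v, w} C K} [hH : IsWeilProj H]
  {p : V ⟶ S} {r : V ⟶ T} {a : C.A S} {b : C.A T} {m l : ℚ}

include hH

lemma cl_sqz {Z : C.A (S.prod T)} (hZ : H.cl Z = 0) : H.cl (sqz C n p r a b m l Z) = 0 := by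
  rw [sqz, shp, cl_comp, cl_comp, cl_comp, cl_comp, hZ, zero_comp, comp_zero, zero_comp, comp_zero]

end weil

end Pool.Agent.V1157.RC
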