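import Pool.Agent.V1157.RC.Defs
import Pool.Agent.Y152.AS.Defs2

/-!
# Bloch's conjecture for correspondences between surfaces and its special cases: definitions
-/

open CategoryTheory AlgebraicGeometry

universe u v w

namespace Pool.Agent.V1157.RC

open Pool.Agent.H914 Pool.Agent.H914.VarClass Pool.Agent.H914.VarClass.Obj Pool.Agent.W492.BB
  Pool.Agent.W550.Corr Pool.Agent.TH133 Pool.Agent.Y152.AS

variable {k : Type u} [Field k] {𝒱 : VarClass k}

/-- The self-correspondence `W` satisfies `W ∘ W = 0`. -/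
def SqZero (C : TheoryData.{u, v, 0} 𝒱 ℚ) (X : 𝒱.Obj) (W : C.A (X.prod X)) : Prop :=
  C.comp W W = 0

/-- The self-correspondence `W` is symmetric: `ᵗW = W`. -/
def Symmetric (C : TheoryData.{u, v, 0} 𝒱 ℚ) (X : 𝒱.Obj) (W : C.A (X.prod X)) : Prop :=
  tp C W = W

/-- The self-correspondence `W` is antisymmetric: `ᵗW = -W`. -/
def Antisymmetric (C : TheoryData.{u, v, 0} 𝒱 ℚ) (X : 𝒱.Obj) (W : C.A (X.prod X)) : Prop :=
  tp C W = -W

variable {C : TheoryData.{u, v, 0} 𝒱 ℚ} {K : Type w} [Field K] (H : WeilTheoryData.{u, v, w} C K)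

/-- Bloch's conjecture: for all surfaces `S`, `T`, every `Z ∈ CH^2(S × T)` which is homologically
equivalent to a degenerate correspondence acts as zero on the Albanese kernel of `S`. -/
def BlochConj : Prop :=
  ∀ (S T : 𝒱.Obj) (Z : C.A (S.prod T)), S.dim = 2 → T.dim = 2 → C.Deg 2 Z →
    IsHomDegenerate H Z → KillsAlbKer C Z

/-- The case of the homologically trivial self-correspondences with the property `P`. -/
def BlochFor (P : ∀ X : 𝒱.Obj, C.A (X.prod X) → Prop) : Prop :=
  ∀ (X : 𝒱.Obj) (W : C.A (X.prod X)), X.dim = 2 → C.Deg 2 W → H.cl W = 0 → P X W →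
    KillsAlbKer C W

/-- Every automorphism `g` (with inverse `g'`) of the Chow motive of a surface `X` which is
homologically equivalent to the identity acts as the identity on the Albanese kernel of `X`. -/
def BlochAut : Prop :=
  ∀ (X : 𝒱.Obj) (g g' : C.A (X.prod X)), X.dim = 2 → C.Deg 2 g → C.Deg 2 g' →
    C.comp g g' = dg C X → C.comp g' g = dg C X → H.cl g = H.cl (dg C X) →
    ∀ α : C.A X, InAlbKer C α → C.act g α = α

/-- Homologically equivalent idempotent self-correspondences of a surface `X` act in the same way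
on the Albanese kernel of `X`. -/
def BlochIdem : Prop :=
  ∀ (X : 𝒱.Obj) (e f : C.A (X.prod X)), X.dim = 2 → C.Deg 2 e → C.Deg 2 f →
    C.comp e e = e → C.comp f f = f → H.cl e = H.cl f →
    ∀ α : C.A X, InAlbKer C α → C.act e α = C.act f α

end Pool.Agent.V1157.RC
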