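import Pool.Agent.V1157.RC.Base
import Pool.Agent.Y152.AS.Ops
import Pool.Agent.V1157.RC.Defs2

/-!
# Bloch's conjecture for correspondences between surfaces: reduction to special self-correspondences
-/

open CategoryTheory AlgebraicGeometry

universe u v w

namespace Pool.Agent.V1157.RC

open Pool.Agent.H914 Pool.Agent.H914.VarClass Pool.Agent.H914.VarClass.Obj Pool.Agent.W492.BB
  Pool.Agent.W550.Corr Pool.Agent.TH133 Pool.Agent.Y148.BB Pool.Agent.Y152.AS

variable {k : Type u} [Field k] {𝒱 : VarClass k} {C : TheoryData.{u, v, 0} 𝒱 ℚ}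
  [hC : IsChowProj C] {K : Type w} [Field K] {H : WeilTheoryData.{u, v, w} C K}
  [hH : IsWeilProj H] {S T V X : 𝒱.Obj}

lemma albKer_mem {α : C.A S} (hS : S.dim = 2) (hα : α ∈ albKer C S) : α ∈ C.gr S 2 := by
  have h := (inAlbKer_iff.2 hα).deg
  exact deg_cast (by rw [hS]; norm_num) h

lemma albKer_degree (H : WeilTheoryData.{u, v, w} C K) [hH : IsWeilProj H] {α : C.A S}
    (hS : S.dim = 2) (hα : α ∈ albKer C S) : HasDegree C α 0 := by
  have hα' := inAlbKer_iff.2 hα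
  obtain ⟨q, hq⟩ := exists_hasDegree hα'.deg
  obtain ⟨h, h1, c, hc, h2⟩ := hC.polarized S
  have e1 : C.act (C.ext (1 : C.A S) h) α = q • h := act_ext' (by rwa [one_mul])
  have hm : C.ext (1 : C.A S) h ∈ C.gr (S.prod S) 1 :=
    deg_cast (by norm_num) (ext_mem' (C.one_mem S) h1)
  rw [hα'.act_eq_zero S _ hm] at e1
  by_cases hq0 : q = 0
  · rwa [hq0] at hq
  · exfalso
    have h3 : h = 0 := by
      rw [← one_smul ℚ h, ← inv_mul_cancel₀ hq0, mul_smul, ← e1, smul_zero]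
    change C.push _ (C.pull _ (h ^ S.dim)) = _ at h2
    rw [h3, hS, zero_pow two_ne_zero, map_zero, map_zero] at h2
    have h4 : (1 : C.A S) = 0 := by
      rw [← one_smul ℚ (1 : C.A S), ← inv_mul_cancel₀ hc, mul_smul, ← h2, smul_zero]
    have h5 : (1 : H.A S) = 0 := by rw [← map_one H.cl, h4, map_zero]
    exact hH.one_ne_zero S h5

/-- The reduction for a pair of surfaces `S`, `T`. -/
lemma reduce {p : V ⟶ S} {r : V ⟶ T} {a : C.A S} {b : C.A T} {m l : ℚ}
    (H : WeilTheoryData.{u, v, w} C K) [hH : IsWeilProj H]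
    (h : Cover C 2 p r a b m l) {Z : C.A (S.prod T)} (hZ : Z ∈ C.gr (S.prod T) 2)
    {α : C.A S} (hα : α ∈ albKer C S) :
    C.pull p α ∈ albKer C V ∧
    C.push r (C.act (sqz C 2 p r a b m l Z) (C.pull p α)) = (l * m) • C.act Z α ∧
    C.act (tp C (sqz C 2 p r a b m l Z)) (C.pull p α) = 0 := by
  have h1 := albKer_mem h.dimS hα
  have h2 := albKer_degree H h.dimS hα
  have h3 := act_albKer h.dimS h.dimT hZ hα
  refine ⟨?_, h.push_act_sqz h1 h2 (albKer_mem h.dimT h3) (albKer_degree H h.dimT h3),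
    h.act_tp_sqz Z h1 h2⟩
  rw [← C.act_cograph]
  exact act_albKer h.dimS h.dimV (deg_cast (by rw [h.dimS]; norm_num) (cograph_mem p)) hα

/-- Bloch's conjecture for the homologically trivial correspondences. -/
def HomConj (H : WeilTheoryData.{u, v, w} C K) : Prop :=
  ∀ (S T : 𝒱.Obj) (Z : C.A (S.prod T)), S.dim = 2 → T.dim = 2 → C.Deg 2 Z → H.cl Z = 0 →
    KillsAlbKer C Z

lemma homConj_iff : HomConj H ↔ ∀ (S T : 𝒱.Obj) (Z : C.A (S.prod T)), S.dim = 2 → T.dim = 2 →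
    C.Deg 2 Z → IsHomDegenerate H Z → KillsAlbKer C Z := by
  constructor
  · intro h S T Z hS hT hZ hZd α hα
    obtain ⟨W, hW, h1⟩ := hZd.homDeg
    have h2 : C.Deg 2 (Z - W) := Submodule.sub_mem _ hZ (degenerate_le hS hW)
    have h3 := h S T (Z - W) hS hT h2 (by rw [map_sub, h1, sub_self]) α hα
    rwa [C.act_sub, degenerate_act hS hW (inAlbKer_iff.1 hα), sub_zero] at h3
  · intro h S T Z hS hT hZ hZd
    exact h S T Z hS hT hZ ⟨0, .zero, by rw [hZd, map_zero]⟩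

lemma exists_cover (hI : HasIntersection C 2 S T) (hS : S.dim = 2) (hT : T.dim = 2) :
    ∃ (V : 𝒱.Obj) (p : V ⟶ S) (r : V ⟶ T) (a : C.A S) (b : C.A T) (m l : ℚ),
      Cover C 2 p r a b m l := by
  obtain ⟨V, p, r, a, b, m, l, h1, h2, h3, h4, h5, h6, h7, h8⟩ := hI
  exact ⟨V, p, r, a, b, m, l, ⟨hS, hT, h1, h2, h3, h4, h5, h6, h7, h8⟩⟩

lemma homConj_of (hI : ∀ S T : 𝒱.Obj, S.dim = 2 → T.dim = 2 → HasIntersection C 2 S T)
    (P : ∀ {V : 𝒱.Obj}, C.A (V.prod V) → Prop)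
    (hP : ∀ {S T V : 𝒱.Obj} (p : V ⟶ S) (r : V ⟶ T) (a : C.A S) (b : C.A T) (m l : ℚ)
      (Z : C.A (S.prod T)), Cover C 2 p r a b m l → C.Deg 2 Z → H.cl Z = 0 →
      P (sqz C 2 p r a b m l Z))
    (hk : ∀ (V : 𝒱.Obj) (W : C.A (V.prod V)), V.dim = 2 → C.Deg 2 W → H.cl W = 0 →
      C.comp W W = 0 → P W → ∀ α ∈ albKer C V, C.act (tp C W) α = 0 → C.act W α = 0) :
    HomConj H := by
  intro S T Z hS hT hZ hZ0 α hα
  obtain ⟨V, p, r, a, b, m, l, h⟩ := exists_cover (hI S T hS hT) hS hT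
  obtain ⟨h1, h2, h3⟩ := reduce H h hZ (inAlbKer_iff.1 hα)
  have h4 := hk V _ h.dimV (h.sqz_mem hZ) (cl_sqz hZ0) (h.sqz_sq Z) (hP p r a b m l Z h hZ hZ0)
    _ h1 h3
  rw [h4, map_zero] at h2
  have h5 : l * m ≠ 0 := mul_ne_zero h.hl h.hm
  rw [← one_smul ℚ (C.act Z α), ← inv_mul_cancel₀ h5, mul_smul, ← h2, smul_zero]

theorem main (H : WeilTheoryData.{u, v, w} C K) [hH : IsWeilProj H]
    (hI : ∀ S T : 𝒱.Obj, S.dim = 2 → T.dim = 2 → HasIntersection C 2 S T) :
    List.TFAE [BlochConj H,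
      BlochFor H (SqZero C), BlochFor H (Symmetric C), BlochFor H (Antisymmetric C),
      BlochAut H, BlochIdem H] := by
  have hdg : ∀ {X : 𝒱.Obj}, X.dim = 2 → dg C X ∈ C.gr (X.prod X) 2 := fun hX =>
    deg_cast (by rw [hX]; norm_num) (dg_mem C _)
  rw [BlochConj, ← homConj_iff]
  tfae_have 1 → 2 := fun h X W hX hW hW0 _ => h X X W hX hX hW hW0
  tfae_have 1 → 3 := fun h X W hX hW hW0 _ => h X X W hX hX hW hW0
  tfae_have 1 → 4 := fun h X W hX hW hW0 _ => h X X W hX hX hW hW0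
  tfae_have 1 → 5 := by
    intro h X g g' hX hg _ _ _ hcl α hα
    have h1 := h X X (g - dg C X) hX hX (Submodule.sub_mem _ hg (hdg hX))
      (by rw [map_sub, hcl, sub_self]) α hα
    rwa [C.act_sub, act_dg, sub_eq_zero] at h1
  tfae_have 1 → 6 := by
    intro h X e f hX he hf _ _ hcl α hα
    have h1 := h X X (e - f) hX hX (Submodule.sub_mem _ he hf)
      (by rw [map_sub, hcl, sub_self]) α hα
    rwa [C.act_sub, sub_eq_zero] at h1
  tfae_have 2 → 1 := by
    intro h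
    refine homConj_of hI (fun _ => True) (fun _ _ _ _ _ _ _ _ _ _ => trivial) ?_
    intro V W hV hW hW0 hWW _ α hα _
    exact h V W hV hW hW0 hWW α (inAlbKer_iff.2 hα)
  tfae_have 3 → 1 := by
    intro h
    refine homConj_of hI (fun _ => True) (fun _ _ _ _ _ _ _ _ _ _ => trivial) ?_
    intro V W hV hW hW0 hWW _ α hα ht
    have h1 := h V (W + tp C W) hV (Submodule.add_mem _ hW (tp_mem C hW))
      (by rw [map_add, cl_tp, hW0, tp_zero, add_zero])
      (show tp C (W + tp C W) = W + tp C W by rw [tp_add, tp_tp, add_comm]) α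
      (inAlbKer_iff.2 hα)
    rwa [C.act_add, ht, add_zero] at h1
  tfae_have 4 → 1 := by
    intro h
    refine homConj_of hI (fun _ => True) (fun _ _ _ _ _ _ _ _ _ _ => trivial) ?_
    intro V W hV hW hW0 hWW _ α hα ht
    have h1 := h V (W - tp C W) hV (Submodule.sub_mem _ hW (tp_mem C hW))
      (by rw [map_sub, cl_tp, hW0, tp_zero, sub_zero])
      (show tp C (W - tp C W) = -(W - tp C W) by rw [tp_sub, tp_tp, neg_sub]) α
      (inAlbKer_iff.2 hα)
    rwa [C.act_sub, ht, sub_zero] at h1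
  tfae_have 5 → 1 := by
    intro h
    refine homConj_of hI (fun _ => True) (fun _ _ _ _ _ _ _ _ _ _ => trivial) ?_
    intro V W hV hW hW0 hWW _ α hα _
    obtain ⟨h1, h2⟩ := unit_add hWW
    have h3 := h V (dg C V + W) (dg C V - W) hV (Submodule.add_mem _ (hdg hV) hW)
      (Submodule.sub_mem _ (hdg hV) hW) h1 h2 (by rw [map_add, hW0, add_zero]) α
      (inAlbKer_iff.2 hα)
    rwa [C.act_add, act_dg, add_eq_left] at h3
  tfae_have 6 → 1 := by
    intro h
    refine homConj_of hI (fun {V} W => ∃ e : C.A (V.prod V), C.Deg 2 e ∧ C.comp e e = e ∧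
      C.comp (e + W) (e + W) = e + W) ?_ ?_
    · intro S T V p r a b m l Z hc _ _
      exact ⟨idp C p l, hc.idp_mem, hc.idp_idem, hc.idem_add Z⟩
    · intro V W hV hW hW0 _ ⟨e, he, hee, hef⟩ α hα _
      have h3 := h V (e + W) e hV (Submodule.add_mem _ he hW) he hef hee
        (by rw [map_add, hW0, add_zero]) α (inAlbKer_iff.2 hα)
      rwa [C.act_add, add_eq_left] at h3
  tfae_finish

end Pool.Agent.V1157.RC
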